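import Pool.Agent.Slit.MU

/-!
The number of self-avoiding turn words of length `n` (first vertices `0, ..., n` distinct, last vertex free)
is at most twice the number of self-avoiding walks with `n` steps.
-/

set_option autoImplicit false

namespace HexMu

open SawNu Finset

/-- the steps of a turn word -/
def stepsOf : ℤ × ℤ → List Bool → List (ℤ × ℤ)
  | d, [] => [d]
  | d, b :: t => d :: stepsOf (HexObs.turn b d) t

lemma stepsOf_length (d : ℤ × ℤ) (t : List Bool) : (stepsOf d t).length = t.length + 1 := by
  induction t generalizing d with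
  | nil => rfl
  | cons b t ih => simp [stepsOf, ih]

lemma ps_stepsOf (v0 d : ℤ × ℤ) (t : List Bool) (i : ℕ) (hi : i ≤ t.length + 1) :
    v0 + ps (stepsOf d t) i = HexObs.vx v0 d t i := by
  induction t generalizing v0 d i with
  | nil =>
    rcases i with _ | _ | i
    · simp [HexObs.vx, HexObs.vs]
    · simp [HexObs.vx, HexObs.vs, HexObs.ds, ps, stepsOf]
    · simp at hi
  | cons b t ih =>
    rcases i with _ | i
    · simp [HexObs.vx, HexObs.vs]
    · rw [vx_cons, ← ih (v0 + d) _ i (by simpa using hi)]
      simp only [ps, stepsOf, List.take_succ_cons, List.sum_cons, add_assoc]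

lemma psi_turn {b c : Bool} {d : ℤ × ℤ} (hd : d ∈ HexObs.dirs) (h : psi d ∈ hexL.S b) :
    psi (HexObs.turn c d) ∈ hexL.S (!b) := by
  revert h
  revert d
  cases b <;> cases c <;> simp only [hexL, Bool.not_true, Bool.not_false, cond_true, cond_false] <;> decide

lemma stepsOf_tw {b : Bool} {d : ℤ × ℤ} (hd : d ∈ HexObs.dirs) (h : psi d ∈ hexL.S b) (t : List Bool) :
    TW hexL.S b ((stepsOf d t).map psi) := by
  induction t generalizing b d with
  | nil => exact ⟨h, trivial⟩
  | cons c t ih =>
    exact ⟨h, ih (HexObs.turn_mem hd c) (psi_turn hd h)⟩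

lemma turn_inj {d : ℤ × ℤ} (hd : d ∈ HexObs.dirs) {b b' : Bool} (h : HexObs.turn b d = HexObs.turn b' d) :
    b = b' := by
  revert h
  revert d
  cases b <;> cases b' <;> decide

lemma stepsOf_head (d : ℤ × ℤ) (t : List Bool) : ∃ l, stepsOf d t = d :: l := by
  cases t with
  | nil => exact ⟨[], rfl⟩
  | cons b t => exact ⟨_, rfl⟩

lemma stepsOf_inj {d : ℤ × ℤ} (hd : d ∈ HexObs.dirs) {t t' : List Bool} (h : stepsOf d t = stepsOf d t') :
    t = t' := by
  induction t generalizing d t' with
  | nil =>
    rcases t' with _ | ⟨b', t'⟩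
    · rfl
    · have := congrArg List.length h
      simp [stepsOf, stepsOf_length] at this
  | cons b t ih =>
    rcases t' with _ | ⟨b', t'⟩
    · have := congrArg List.length h
      simp [stepsOf, stepsOf_length] at this
    · simp only [stepsOf, List.cons.injEq, true_and] at h
      obtain ⟨l, hl⟩ := stepsOf_head (HexObs.turn b d) t
      obtain ⟨l', hl'⟩ := stepsOf_head (HexObs.turn b' d) t'
      have h1 : HexObs.turn b d = HexObs.turn b' d := by
        rw [hl, hl'] at h
        exact (List.cons.inj h).1
      have h2 := turn_inj hd h1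
      subst h2
      rw [ih (HexObs.turn_mem hd b) h]

lemma psi_zero : psi 0 = 0 := rfl

lemma ps_map_psi (l : List (ℤ × ℤ)) (i : ℕ) : ps (l.map psi) i = psi (ps l i) := by
  induction l generalizing i with
  | nil => simp [psi_zero]
  | cons s l ih =>
    rcases i with _ | i
    · simp [psi_zero]
    · have := ih i
      simp only [ps] at this
      simp only [ps, List.map_cons, List.take_succ_cons, List.sum_cons, psi_add, this]

lemma map_psi_inj {l l' : List (ℤ × ℤ)} (h : l.map psi = l'.map psi) : l = l' :=
  List.map_injective_iff.mpr (fun _ _ hpq => psi_inj hpq) h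

/-- turn words against walks -/
theorem words_le_WS {n : ℕ} (hn : 1 ≤ n) :
    Set.ncard {t : List Bool | t.length = n ∧ ∀ i k, i < k → k ≤ t.length →
      HexObs.vx (0, 0) (1, 0) t i ≠ HexObs.vx (0, 0) (1, 0) t k} ≤ 2 * (WS hexL n).card := by
  classical
  have hd : ((1, 0) : ℤ × ℤ) ∈ HexObs.dirs := by decide
  have hS : psi (1, 0) ∈ hexL.S false := by simp [psi, hexL]
  set f : List Bool → List (ℤ × ℤ) × Bool := fun t => ((stepsOf (1, 0) t.dropLast).map psi, t.getLastD true)
    with hf
  set R : Finset (List (ℤ × ℤ) × Bool) := WS hexL n ×ˢ Finset.univ with hR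
  have hcard : R.card = 2 * (WS hexL n).card := by
    rw [hR, Finset.card_product, Finset.card_univ, Fintype.card_bool, mul_comm]
  rw [← hcard, ← Set.ncard_coe_finset]
  refine Set.ncard_le_ncard_of_injOn f ?_ ?_ (Finset.finite_toSet _)
  · rintro t ⟨h1, h2⟩
    have hne : t ≠ [] := by
      rintro rfl
      simp at h1
      omega
    have hsplit : t.dropLast ++ [t.getLast hne] = t := List.dropLast_append_getLast hne
    have hl : t.dropLast.length = n - 1 := by rw [List.length_dropLast, h1]
    rw [hR, Finset.mem_coe, Finset.mem_product]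
    refine ⟨?_, Finset.mem_univ _⟩
    rw [mem_WS]
    refine ⟨?_, stepsOf_tw hd hS _, ?_⟩
    · rw [List.length_map, stepsOf_length, hl]
      omega
    · intro i j hij hj he
      rw [List.length_map, stepsOf_length, hl] at hj
      rw [ps_map_psi, ps_map_psi] at he
      have h3 := psi_inj he
      have h4 := ps_stepsOf (0, 0) (1, 0) t.dropLast i (by omega)
      have h5 := ps_stepsOf (0, 0) (1, 0) t.dropLast j (by omega)
      have h6 : ∀ k, k ≤ n → HexObs.vx (0, 0) (1, 0) t.dropLast k = HexObs.vx (0, 0) (1, 0) t k := by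
        intro k hk
        have := HexObs.vx_append (v0 := (0, 0)) (d0 := (1, 0)) (t := t.dropLast) (s := [t.getLast hne]) (i := k)
          (by omega)
        rw [hsplit] at this
        exact this.symm
      apply h2 i j hij (by omega)
      rw [← h6 i (by omega), ← h6 j (by omega), ← h4, ← h5, h3]
  · rintro t ⟨h1, _⟩ t' ⟨h1', _⟩ he
    have hne : t ≠ [] := by
      rintro rfl
      simp at h1
      omega
    have hne' : t' ≠ [] := by
      rintro rfl
      simp at h1'
      omega
    simp only [hf, Prod.mk.injEq] at he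
    have h3 := stepsOf_inj hd (map_psi_inj he.1)
    have h4 : t.getLast hne = t'.getLast hne' := by
      have := he.2
      rw [List.getLastD_eq_getLast?, List.getLastD_eq_getLast?, List.getLast?_eq_getLast_of_ne_nil hne,
        List.getLast?_eq_getLast_of_ne_nil hne'] at this
      simpa using this
    rw [← List.dropLast_append_getLast hne, ← List.dropLast_append_getLast hne', h3, h4]

/-- turn words against the counts of the frozen statement -/
theorem words_le {a : ℕ → ℕ}
    (ha : ∀ n : ℕ, a n = Set.ncard {f : Fin (n + 1) → ℤ × ℤ |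
      f 0 = 0 ∧ Function.Injective f ∧ ∀ i : Fin n, HexAdj (f i.castSucc) (f i.succ)}) {n : ℕ} (hn : 1 ≤ n) :
    (Set.ncard {t : List Bool | t.length = n ∧ ∀ i k, i < k → k ≤ t.length →
      HexObs.vx (0, 0) (1, 0) t i ≠ HexObs.vx (0, 0) (1, 0) t k} : ℝ) ≤ 2 * a n := by
  have haW : a n = (WS hexL n).card := (ha n).trans (vencHex.ncard_eq n)
  rw [haW]
  exact_mod_cast words_le_WS hn

end HexMu
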