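import Pool.Agent.Slit.Dict

/-!
The most popular class of bridges of a given length: concatenations leave a strip, whose critical
weight is at most one.
-/

set_option autoImplicit false

namespace HexMu

open SawNu Finset

lemma bodd_even {n : ℕ} (h : Even n) : n.bodd = false := by
  obtain ⟨k, rfl⟩ := h
  simp [Nat.bodd_add]

/-- twice the level in the direction of 60 degrees -/
def lam (p : ℤ × ℤ) : ℤ := p.1 + 3 * p.2

lemma lam_add (p q : ℤ × ℤ) : lam (p + q) = lam p + lam q := by
  simp only [lam, Prod.fst_add, Prod.snd_add]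
  ring

@[simp] lemma lam_zero : lam 0 = 0 := by simp [lam]

lemma lam_smul (k : ℕ) (p : ℤ × ℤ) : lam (k • p) = k * lam p := by
  have h1 : (k • p).1 = k * p.1 := by rw [Prod.smul_fst, nsmul_eq_mul]
  have h2 : (k • p).2 = k * p.2 := by rw [Prod.smul_snd, nsmul_eq_mul]
  rw [lam, lam, h1, h2]
  ring

lemma lam_psi (p : ℤ × ℤ) : lam (psi p) = 2 * HexObs.ip p (0, 1) := by
  simp only [lam, psi, HexObs.ip]
  ring

lemma lam_step {b : Bool} {s : ℤ × ℤ} (hs : s ∈ hexL.S b) : -4 ≤ lam s ∧ lam s ≤ 4 := by
  cases b <;> simp only [hexL, cond_true, cond_false, Finset.mem_insert, Finset.mem_singleton] at hs <;>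
    rcases hs with rfl | rfl | rfl <;> decide

lemma lam_ps {b : Bool} {l : List (ℤ × ℤ)} (h : TW hexL.S b l) (i : ℕ) :
    -(4 * (l.length : ℤ)) ≤ lam (ps l i) ∧ lam (ps l i) ≤ 4 * l.length := by
  induction l generalizing b i with
  | nil => simp
  | cons s l ih =>
    obtain ⟨h1, h2⟩ := h
    rcases i with _ | i
    · simp only [ps_zero, lam_zero, List.length_cons]
      push_cast
      constructor <;> linarith [Int.natCast_nonneg l.length]
    · have e : ps (s :: l) (i + 1) = s + ps l i := by simp [ps]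
      have h3 := lam_step h1
      have h4 := ih h2 i
      rw [e, lam_add, List.length_cons]
      push_cast
      constructor <;> linarith [h3.1, h3.2, h4.1, h4.2]

lemma WDn.append {a b : List (ℤ × ℤ)} (ha : WDn a) (hb : WDn b) : WDn (a ++ b) := by
  have h0 : 0 ≤ b.sum.2 := by simpa using hb 0 (Nat.zero_le _)
  intro i hi
  rcases le_or_gt i a.length with h | h
  · rw [ps_append_left h]
    have := ha i h
    simp only [List.sum_append, Prod.snd_add]
    linarith
  · rw [ps_append_right' h.le]
    have := hb (i - a.length) (by simp at hi; omega)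
    simp only [List.sum_append, Prod.snd_add]
    linarith

/-- bridges of a class: given type, length and displacement -/
structure InK (b : Bool) (m : ℕ) (X : ℤ × ℤ) (l : List (ℤ × ℤ)) : Prop where
  len : l.length = m
  tw : TW hexL.S b l
  sa : SA l
  up : Up l
  wdn : WDn l
  sum : l.sum = X

/-- concatenations of `k` words of `K` -/
def KK (K : Finset (List (ℤ × ℤ))) : ℕ → Finset (List (ℤ × ℤ))
  | 0 => {[]}
  | k + 1 => (K ×ˢ KK K k).image (fun x => x.1 ++ x.2)

lemma mem_KK_succ {K : Finset (List (ℤ × ℤ))} {k : ℕ} {w : List (ℤ × ℤ)} :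
    w ∈ KK K (k + 1) ↔ ∃ a ∈ K, ∃ c ∈ KK K k, a ++ c = w := by
  simp only [KK, Finset.mem_image, Finset.mem_product, Prod.exists]
  constructor
  · rintro ⟨a, c, ⟨h1, h2⟩, h3⟩
    exact ⟨a, h1, c, h2, h3⟩
  · rintro ⟨a, h1, c, h2, h3⟩
    exact ⟨a, c, ⟨h1, h2⟩, h3⟩

lemma card_KK {K : Finset (List (ℤ × ℤ))} {m : ℕ} (hK : ∀ l ∈ K, l.length = m) (k : ℕ) :
    (KK K k).card = K.card ^ k := by
  induction k with
  | zero => simp [KK]
  | succ k ih =>
    rw [KK, Finset.card_image_of_injOn, Finset.card_product, ih, pow_succ, mul_comm]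
    rintro ⟨a, c⟩ hx ⟨a', c'⟩ hy h
    rw [Finset.mem_coe, Finset.mem_product] at hx hy
    simp only at h
    have := List.append_inj h (by rw [hK a hx.1, hK a' hy.1])
    exact Prod.ext this.1 this.2

/-- properties of the concatenations -/
structure InKK (b : Bool) (m k : ℕ) (X : ℤ × ℤ) (w : List (ℤ × ℤ)) : Prop where
  len : w.length = k * m
  tw : TW hexL.S b w
  sa : SA w
  up : Up w
  wdn : WDn w
  sum : w.sum = k • X
  lo : ∀ i, i ≤ w.length → -(4 * (m : ℤ)) ≤ lam (ps w i)
  hi : ∀ i, i ≤ w.length → lam (ps w i) ≤ lam w.sum + 4 * m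

lemma inKK {b : Bool} {m : ℕ} (hm : Even m) {X : ℤ × ℤ} (hX : 0 ≤ lam X) {K : Finset (List (ℤ × ℤ))}
    (hK : ∀ l ∈ K, InK b m X l) (k : ℕ) : ∀ w ∈ KK K k, InKK b m k X w := by
  have hX' : ∀ k : ℕ, 0 ≤ lam (k • X) := by
    intro k
    rw [lam_smul]
    positivity
  induction k with
  | zero =>
    intro w hw
    simp only [KK, Finset.mem_singleton] at hw
    subst hw
    refine ⟨by simp, trivial, SA.nil, Up.nil, ?_, by simp, ?_, ?_⟩
    · intro i _
      simp
    · intro i _
      simp
    · intro i _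
      simp
  | succ k ih =>
    intro w hw
    obtain ⟨a, ha, c, hc, rfl⟩ := mem_KK_succ.1 hw
    have h1 := hK a ha
    have h2 := ih c hc
    have hpar : par a = false := by
      rw [par, h1.len]
      exact bodd_even hm
    refine ⟨?_, ?_, ?_, Up.append h1.up h2.up, WDn.append h1.wdn h2.wdn, ?_, ?_, ?_⟩
    · rw [List.length_append, h1.len, h2.len]
      ring
    · rw [TW_append, hpar]
      refine ⟨h1.tw, ?_⟩
      simpa using h2.tw
    · exact SA.append_of_wdn h1.sa h2.sa h1.wdn h2.up
    · rw [List.sum_append, h1.sum, h2.sum, add_comm k 1, add_smul, one_smul]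
    · intro i hi
      rcases le_or_gt i a.length with h | h
      · rw [ps_append_left h]
        have := (lam_ps h1.tw i).1
        rwa [h1.len] at this
      · rw [ps_append_right' h.le, lam_add, h1.sum]
        have := h2.lo (i - a.length) (by simp at hi; omega)
        linarith
    · intro i hi
      rcases le_or_gt i a.length with h | h
      · rw [ps_append_left h, List.sum_append, lam_add, h1.sum, h2.sum]
        have h3 := (lam_ps h1.tw i).2
        rw [h1.len] at h3
        have := hX' k
        linarith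
      · rw [ps_append_right' h.le, lam_add, List.sum_append, lam_add]
        have := h2.hi (i - a.length) (by simp at hi; omega)
        linarith

/-- the upward steps -/
def uu (b : Bool) : ℤ × ℤ := cond b (1, 1) (-1, 1)

/-- the alternating upward word -/
def zg : Bool → ℕ → List (ℤ × ℤ)
  | _, 0 => []
  | b, n + 1 => uu b :: zg (!b) n

lemma uu_mem (b : Bool) : uu b ∈ hexL.S b := by
  cases b <;> simp [uu, hexL]

lemma zg_length (b : Bool) (n : ℕ) : (zg b n).length = n := by
  induction n generalizing b with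
  | zero => rfl
  | succ n ih => simp [zg, ih]

lemma zg_tw (b : Bool) (n : ℕ) : TW hexL.S b (zg b n) := by
  induction n generalizing b with
  | zero => trivial
  | succ n ih => exact ⟨uu_mem b, ih _⟩

lemma lam_uu (b : Bool) : 2 ≤ lam (uu b) := by cases b <;> decide

lemma zg_ps (b : Bool) (n i : ℕ) (hi : i ≤ n) : (ps (zg b n) i).2 = i ∧ 2 * (i : ℤ) ≤ lam (ps (zg b n) i) ∧
    lam (ps (zg b n) i) + 2 * ((n : ℤ) - i) ≤ lam (zg b n).sum := by
  induction n generalizing b i with
  | zero =>
    have : i = 0 := by omega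
    subst this
    simp [zg]
  | succ n ih =>
    have h2 : (uu b).2 = 1 := by cases b <;> rfl
    have h3 := lam_uu b
    rcases i with _ | i
    · have := ih (!b) 0 (Nat.zero_le _)
      simp only [ps_zero, lam_zero, Nat.cast_zero] at this
      simp only [ps_zero, lam_zero, Nat.cast_zero, zg, List.sum_cons, lam_add]
      refine ⟨rfl, le_refl _, ?_⟩
      push_cast
      linarith [this.2.2]
    · have e : ps (zg b (n + 1)) (i + 1) = uu b + ps (zg (!b) n) i := by simp [ps, zg]
      have := ih (!b) i (by omega)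
      rw [e, lam_add]
      simp only [zg, List.sum_cons, lam_add, Prod.snd_add, h2]
      push_cast
      refine ⟨by linarith [this.1], by linarith [this.2.1], by linarith [this.2.2]⟩

lemma zg_sum_snd (b : Bool) (n : ℕ) : (zg b n).sum.2 = n := by
  have := (zg_ps b n n le_rfl).1
  rwa [ps_of_le (by rw [zg_length])] at this

lemma zg_lam_sum (b : Bool) (n : ℕ) : 2 * (n : ℤ) ≤ lam (zg b n).sum := by
  have := (zg_ps b n n le_rfl).2.1
  rwa [ps_of_le (by rw [zg_length])] at this

lemma zg_SA (b : Bool) (n : ℕ) : SA (zg b n) := by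
  intro i j hij hj h
  rw [zg_length] at hj
  have h1 := (zg_ps b n i (by omega)).1
  have h2 := (zg_ps b n j hj).1
  rw [h, h2] at h1
  omega

lemma zg_Up (b : Bool) (n : ℕ) : Up (zg b n) := by
  intro i h1 h2
  rw [zg_length] at h2
  rw [(zg_ps b n i h2).1]
  exact_mod_cast h1

lemma zg_WDn (b : Bool) (n : ℕ) : WDn (zg b n) := by
  intro i h
  rw [zg_length] at h
  rw [(zg_ps b n i h).1, zg_sum_snd]
  exact_mod_cast h

lemma zg_last (b : Bool) (n : ℕ) (h : zg b (n + 1) ≠ []) :
    (zg b (n + 1)).getLast h = uu (xor b n.bodd) := by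
  induction n generalizing b with
  | zero => simp [zg]
  | succ n ih =>
    have h1 : zg b (n + 1 + 1) = uu b :: zg (!b) (n + 1) := rfl
    have h2 : zg (!b) (n + 1) ≠ [] := by simp [zg]
    simp only [h1]
    rw [List.getLast_cons h2, ih (!b) h2, Nat.bodd_succ]
    cases b <;> cases n.bodd <;> rfl

/-- lengths of the two ends -/
def n1 (b : Bool) (m : ℕ) : ℕ := cond b (2 * m + 1) (2 * m + 2)
def n2 (b : Bool) (m : ℕ) : ℕ := cond b (2 * m + 2) (2 * m + 1)

/-- the tail of the long word -/
def ltail (b : Bool) (m : ℕ) (w : List (ℤ × ℤ)) : List (ℤ × ℤ) :=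
  zg false (n1 b m) ++ (w ++ zg b (n2 b m + 1))

/-- the long word -/
def lw (b : Bool) (m : ℕ) (w : List (ℤ × ℤ)) : List (ℤ × ℤ) := (1, 1) :: ltail b m w

lemma lw_eq (b : Bool) (m : ℕ) (w : List (ℤ × ℤ)) :
    lw b m w = zg true (n1 b m + 1) ++ (w ++ zg b (n2 b m + 1)) := rfl

lemma ltail_length {b : Bool} {m k : ℕ} {w : List (ℤ × ℤ)} (hw : w.length = k * m) :
    (ltail b m w).length = k * m + (4 * m + 4) := by
  unfold ltail
  rw [List.length_append, List.length_append, zg_length, zg_length, hw]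
  cases b <;> simp only [n1, n2, cond_true, cond_false] <;> ring

section

variable {b : Bool} {m k : ℕ} {X : ℤ × ℤ} {w : List (ℤ × ℤ)}

lemma lw_tw (hm : Even m) (hw : InKK b m k X w) : TW hexL.S true (lw b m w) := by
  rw [lw_eq, TW_append, TW_append]
  have h1 : xor true (par (zg true (n1 b m + 1))) = b := by
    rw [par, zg_length]
    cases b
    · simp [n1, Nat.bodd_succ, Nat.bodd_mul]
    · simp [n1, Nat.bodd_succ, Nat.bodd_mul]
  have h2 : par w = false := by
    rw [par, hw.len, Nat.bodd_mul, bodd_even hm]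
    simp
  rw [h1, h2]
  refine ⟨zg_tw _ _, hw.tw, ?_⟩
  simpa using zg_tw b _

lemma lw_SA (hw : InKK b m k X w) : SA (lw b m w) := by
  rw [lw_eq]
  refine SA.append_of_wdn (zg_SA _ _) ?_ (zg_WDn _ _) (Up.append hw.up (zg_Up _ _))
  exact SA.append_of_wdn hw.sa (zg_SA _ _) hw.wdn (zg_Up _ _)

lemma lw_sum (hw : InKK b m k X w) :
    (lw b m w).sum = (zg true (n1 b m + 1)).sum + (k • X + (zg b (n2 b m + 1)).sum) := by
  rw [lw_eq, List.sum_append, List.sum_append, hw.sum]

lemma n1_ge (b : Bool) (m : ℕ) : 2 * m + 1 ≤ n1 b m := by cases b <;> simp [n1]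
lemma n2_ge (b : Bool) (m : ℕ) : 2 * m + 1 ≤ n2 b m := by cases b <;> simp [n2]

/-- the levels of the long word -/
lemma lw_level (hX : 0 ≤ lam X) (hw : InKK b m k X w) (i : ℕ) (h1 : 1 ≤ i) (h2 : i < (lw b m w).length) :
    0 < lam (ps (lw b m w) i) ∧ lam (ps (lw b m w) i) < lam (lw b m w).sum := by
  have hk : 0 ≤ lam (k • X) := by
    rw [lam_smul]
    positivity
  have e1 := zg_lam_sum true (n1 b m + 1)
  have e2 := zg_lam_sum b (n2 b m + 1)
  have g1 := n1_ge b m
  have g2 := n2_ge b m
  have hs := lw_sum (b := b) (m := m) hw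
  rw [hs, lam_add, lam_add]
  rw [lw_eq] at h2 ⊢
  rw [List.length_append, List.length_append, zg_length, zg_length] at h2
  zify at g1 g2
  push_cast at e1 e2
  rcases le_or_gt i (n1 b m + 1) with h | h
  · rw [ps_append_left (by rw [zg_length]; exact h)]
    have := zg_ps true (n1 b m + 1) i h
    have h3 : (i : ℤ) ≤ (n1 b m : ℤ) + 1 := by exact_mod_cast h
    have h4 : (1 : ℤ) ≤ i := by exact_mod_cast h1
    have h5 := this.2.2
    push_cast at h5
    constructor
    · linarith [this.2.1]
    · linarith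
  · rw [ps_append_right' (by rw [zg_length]; exact h.le), zg_length, lam_add]
    rcases le_or_gt (i - (n1 b m + 1)) w.length with h3 | h3
    · rw [ps_append_left h3]
      have h4 := hw.lo _ h3
      have h5 := hw.hi _ h3
      rw [hw.sum] at h5
      constructor
      · linarith
      · linarith
    · rw [ps_append_right' h3.le, lam_add, hw.sum]
      have h6 : i - (n1 b m + 1) - w.length ≤ n2 b m + 1 := by omega
      have h7 := zg_ps b (n2 b m + 1) _ h6
      have h8 : i - (n1 b m + 1) - w.length < n2 b m + 1 := by omega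
      have h9 : ((i - (n1 b m + 1) - w.length : ℕ) : ℤ) < ((n2 b m + 1 : ℕ) : ℤ) := by exact_mod_cast h8
      have h10 : (0 : ℤ) ≤ ((i - (n1 b m + 1) - w.length : ℕ) : ℤ) := Int.natCast_nonneg _
      constructor
      · linarith [h7.2.1]
      · linarith [h7.2.2]

lemma lw_last (w : List (ℤ × ℤ)) (h : lw b m w ≠ []) : (lw b m w).getLast h = (1, 1) := by
  have h1 : zg b (n2 b m + 1) ≠ [] := by simp [zg]
  have h2 : w ++ zg b (n2 b m + 1) ≠ [] := by simp [zg]
  simp only [lw_eq]
  rw [List.getLast_append_of_ne_nil _ h2, List.getLast_append_of_ne_nil _ h1, zg_last]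
  cases b
  · simp [n2, uu, Nat.bodd_succ, Nat.bodd_mul]
  · simp [n2, uu, Nat.bodd_succ, Nat.bodd_mul]

end

end HexMu
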