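import Pool.Agent.SawBr38.Bridge
import Pool.Agent.HexObs.Cut

/-!
Dictionary between typed step words of the honeycomb lattice (`SawNu.hexL`) and turn words
(`HexObs`).
-/

set_option autoImplicit false

namespace HexMu

open SawNu

/-- the steps of `hexL` as unit vectors of the triangular lattice in the basis 1, zeta -/
def phi (p : ℤ × ℤ) : ℤ × ℤ := ((p.1 - p.2) / 2, p.2)

/-- the inverse of `phi`, linear -/
def psi (p : ℤ × ℤ) : ℤ × ℤ := (2 * p.1 + p.2, p.2)

lemma psi_add (p q : ℤ × ℤ) : psi (p + q) = psi p + psi q := by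
  simp only [psi, Prod.fst_add, Prod.snd_add, Prod.mk_add_mk]
  congr 1
  ring

lemma psi_sub (p q : ℤ × ℤ) : psi (p - q) = psi p - psi q := by
  simp only [psi, Prod.fst_sub, Prod.snd_sub, Prod.mk_sub_mk]
  congr 1
  ring

lemma psi_inj {p q : ℤ × ℤ} (h : psi p = psi q) : p = q := by
  simp only [psi, Prod.mk.injEq] at h
  exact Prod.ext (by omega) (by omega)

lemma psi_phi {b : Bool} {s : ℤ × ℤ} (hs : s ∈ hexL.S b) : psi (phi s) = s := by
  cases b <;> simp only [hexL, cond_true, cond_false, Finset.mem_insert, Finset.mem_singleton] at hs <;>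
    rcases hs with rfl | rfl | rfl <;> rfl

lemma phi_dirs {b : Bool} {s : ℤ × ℤ} (hs : s ∈ hexL.S b) : phi s ∈ HexObs.dirs := by
  cases b <;> simp only [hexL, cond_true, cond_false, Finset.mem_insert, Finset.mem_singleton] at hs <;>
    rcases hs with rfl | rfl | rfl <;> decide

/-- chains of directions, each turned by 60 degrees against the previous one -/
def Ch : ℤ × ℤ → List (ℤ × ℤ) → Prop
  | _, [] => True
  | d, s :: l => (s = HexObs.rotL d ∨ s = HexObs.rotR d) ∧ Ch s l

/-- the turns of a chain -/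
def tw : ℤ × ℤ → List (ℤ × ℤ) → List Bool
  | _, [] => []
  | d, s :: l => decide (s = HexObs.rotL d) :: tw s l

lemma tw_length (d : ℤ × ℤ) (l : List (ℤ × ℤ)) : (tw d l).length = l.length := by
  induction l generalizing d with
  | nil => rfl
  | cons s l ih => simp [tw, ih]

lemma turn_decide {d s : ℤ × ℤ} (h : s = HexObs.rotL d ∨ s = HexObs.rotR d) :
    HexObs.turn (decide (s = HexObs.rotL d)) d = s := by
  by_cases h1 : s = HexObs.rotL d
  · rw [decide_eq_true h1]
    exact h1.symm
  · rw [decide_eq_false h1]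
    rcases h with h | h
    · exact absurd h h1
    · exact h.symm

lemma vx_cons (v0 d0 : ℤ × ℤ) (b : Bool) (t : List Bool) (i : ℕ) :
    HexObs.vx v0 d0 (b :: t) (i + 1) = HexObs.vx (v0 + d0) (HexObs.turn b d0) t i := by
  unfold HexObs.vx
  rw [add_comm i 1, HexObs.vs_shift]
  have e1 : HexObs.vs v0 d0 (HexObs.tf (b :: t)) 1 = v0 + d0 := rfl
  have e2 : HexObs.ds d0 (HexObs.tf (b :: t)) 1 = HexObs.turn b d0 := rfl
  rw [e1, e2]
  have e3 : (fun k => HexObs.tf (b :: t) (1 + k)) = HexObs.tf t := by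
    funext k
    rw [add_comm 1 k]
    simp [HexObs.tf]
  rw [e3]

lemma dx_cons (d0 : ℤ × ℤ) (b : Bool) (t : List Bool) (i : ℕ) :
    HexObs.dx d0 (b :: t) (i + 1) = HexObs.dx (HexObs.turn b d0) t i := by
  unfold HexObs.dx
  rw [add_comm i 1, HexObs.ds_shift]
  have e2 : HexObs.ds d0 (HexObs.tf (b :: t)) 1 = HexObs.turn b d0 := rfl
  rw [e2]
  have e3 : (fun k => HexObs.tf (b :: t) (1 + k)) = HexObs.tf t := by
    funext k
    rw [add_comm 1 k]
    simp [HexObs.tf]
  rw [e3]

/-- the vertices of the turn word of a chain -/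
lemma vx_tw {d : ℤ × ℤ} {l : List (ℤ × ℤ)} (h : Ch d l) (v0 : ℤ × ℤ) (i : ℕ) (hi : i ≤ l.length + 1) :
    HexObs.vx v0 d (tw d l) i = v0 + ps (d :: l) i := by
  induction l generalizing d v0 i with
  | nil =>
    rcases i with _ | _ | i
    · simp [HexObs.vx, HexObs.vs]
    · simp [HexObs.vx, HexObs.vs, HexObs.ds, ps]
    · simp at hi
  | cons s l ih =>
    obtain ⟨h1, h2⟩ := h
    rcases i with _ | i
    · simp [HexObs.vx, HexObs.vs]
    · rw [tw, vx_cons, turn_decide h1, ih h2 (v0 + d) i (by simpa using hi)]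
      simp only [ps, List.take_succ_cons, List.sum_cons, add_assoc]

lemma dx_tw {d : ℤ × ℤ} {l : List (ℤ × ℤ)} (h : Ch d l) :
    HexObs.dx d (tw d l) l.length = (d :: l).getLast (by simp) := by
  induction l generalizing d with
  | nil => simp [HexObs.dx, HexObs.ds]
  | cons s l ih =>
    obtain ⟨h1, h2⟩ := h
    rw [tw, List.length_cons, dx_cons, turn_decide h1, ih h2]
    exact (List.getLast_cons (a := d) (l := s :: l) (by simp)).symm

lemma tw_inj {d : ℤ × ℤ} {l l' : List (ℤ × ℤ)} (h : Ch d l) (h' : Ch d l') (he : tw d l = tw d l') :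
    l = l' := by
  induction l generalizing d l' with
  | nil =>
    rcases l' with _ | ⟨s', l'⟩
    · rfl
    · simp [tw] at he
  | cons s l ih =>
    rcases l' with _ | ⟨s', l'⟩
    · simp [tw] at he
    · obtain ⟨h1, h2⟩ := h
      obtain ⟨h1', h2'⟩ := h'
      simp only [tw, List.cons.injEq] at he
      have e : s = s' := by rw [← turn_decide h1, ← turn_decide h1', he.1]
      subst e
      rw [ih h2 h2' he.2]

/-- consecutive steps of a typed word without immediate reversal -/
lemma step_turn {b : Bool} {s s' : ℤ × ℤ} (hs : s ∈ hexL.S b) (hs' : s' ∈ hexL.S (!b))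
    (hne : s + s' ≠ 0) : phi s' = HexObs.rotL (phi s) ∨ phi s' = HexObs.rotR (phi s) := by
  cases b <;> simp only [hexL, Bool.not_true, Bool.not_false, cond_true, cond_false, Finset.mem_insert,
    Finset.mem_singleton] at hs hs' <;>
    rcases hs with rfl | rfl | rfl <;> rcases hs' with rfl | rfl | rfl <;>
    first
    | (exact absurd (by decide) hne)
    | (left; decide)
    | (right; decide)

lemma ch_of_SA {b : Bool} {s : ℤ × ℤ} {l : List (ℤ × ℤ)} (h1 : TW hexL.S b (s :: l)) (h2 : SA (s :: l)) :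
    Ch (phi s) (l.map phi) := by
  induction l generalizing b s with
  | nil => trivial
  | cons s' l ih =>
    obtain ⟨hs, hs', hl⟩ := h1
    refine ⟨step_turn hs hs' ?_, ?_⟩
    · intro h0
      apply h2 0 2 (by omega) (by simp)
      simp [ps, h0]
    · exact ih ⟨hs', hl⟩ (SA.right (a := [s]) h2)

lemma ps_map_phi {b : Bool} {l : List (ℤ × ℤ)} (h : TW hexL.S b l) (i : ℕ) :
    psi (ps (l.map phi) i) = ps l i := by
  induction l generalizing b i with
  | nil => simp [psi]
  | cons s l ih =>
    obtain ⟨h1, h2⟩ := h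
    rcases i with _ | i
    · simp [psi]
    · have := ih h2 i
      simp only [ps] at this
      simp only [ps, List.map_cons, List.take_succ_cons, List.sum_cons, psi_add, psi_phi h1, this]

/-- the turn word of a step word (the first step is dropped) -/
def tword : List (ℤ × ℤ) → List Bool
  | [] => []
  | s :: l => tw (phi s) (l.map phi)

lemma tword_length (s : ℤ × ℤ) (l : List (ℤ × ℤ)) : (tword (s :: l)).length = l.length := by
  simp [tword, tw_length]

/-- the vertices of the turn word of a step word -/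
lemma vx_tword {b : Bool} {s : ℤ × ℤ} {l : List (ℤ × ℤ)} (h1 : TW hexL.S b (s :: l)) (h2 : SA (s :: l))
    (v0 : ℤ × ℤ) (i : ℕ) (hi : i ≤ l.length + 1) :
    psi (HexObs.vx v0 (phi s) (tword (s :: l)) i - v0) = ps (s :: l) i := by
  rw [tword, vx_tw (ch_of_SA h1 h2) v0 i (by simpa using hi), add_sub_cancel_left]
  have := ps_map_phi h1 i
  simpa using this

lemma vx_tword_inj {b : Bool} {s : ℤ × ℤ} {l : List (ℤ × ℤ)} (h1 : TW hexL.S b (s :: l)) (h2 : SA (s :: l))
    (v0 : ℤ × ℤ) {i k : ℕ} (hik : i < k) (hk : k ≤ l.length + 1) :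
    HexObs.vx v0 (phi s) (tword (s :: l)) i ≠ HexObs.vx v0 (phi s) (tword (s :: l)) k := by
  intro h
  apply h2 i k hik (by simpa using hk)
  rw [← vx_tword h1 h2 v0 i (by omega), ← vx_tword h1 h2 v0 k hk, h]

lemma tword_inj {b : Bool} {s : ℤ × ℤ} {l l' : List (ℤ × ℤ)} (h1 : TW hexL.S b (s :: l)) (h2 : SA (s :: l))
    (h1' : TW hexL.S b (s :: l')) (h2' : SA (s :: l')) (he : tword (s :: l) = tword (s :: l')) : l = l' := by
  have h3 := tw_inj (ch_of_SA h1 h2) (ch_of_SA h1' h2') he
  have key : ∀ (b : Bool) (l : List (ℤ × ℤ)), TW hexL.S b l → (l.map phi).map psi = l := by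
    intro b l
    induction l generalizing b with
    | nil => intro _; rfl
    | cons s l ih =>
      rintro ⟨k1, k2⟩
      rw [List.map_cons, List.map_cons, psi_phi k1, ih _ k2]
  rw [← key _ l h1.2, ← key _ l' h1'.2, h3]

end HexMu
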