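import Pool.Agent.Slit.Pow

/-!
`μ ≤ 1 / xc` on the honeycomb lattice, in the encoding of the frozen statement, and the comparison of
turn words with self-avoiding walks.
-/

set_option autoImplicit false

namespace HexMu

open SawNu Finset Pool.Agent.Lib.SAW.HW Pool.Agent.SawBr38

lemma sum_bound {b : Bool} {l : List (ℤ × ℤ)} (h : TW hexL.S b l) :
    -(2 * (l.length : ℤ)) ≤ l.sum.1 ∧ l.sum.1 ≤ 2 * l.length ∧ l.sum.2 ≤ l.length := by
  induction l generalizing b with
  | nil => simp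
  | cons s l ih =>
    obtain ⟨h1, h2⟩ := h
    have h3 := ih h2
    have h4 : -2 ≤ s.1 ∧ s.1 ≤ 2 ∧ s.2 ≤ 1 := by
      cases b <;> simp only [hexL, cond_true, cond_false, Finset.mem_insert, Finset.mem_singleton] at h1 <;>
        rcases h1 with rfl | rfl | rfl <;> decide
    simp only [List.sum_cons, Prod.fst_add, Prod.snd_add, List.length_cons]
    push_cast
    refine ⟨by linarith [h3.1, h4.1], by linarith [h3.2.1, h4.2.1], by linarith [h3.2.2, h4.2.2]⟩

/-- bridges of even length -/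
theorem b_le {m : ℕ} (hm : Even m) (hm1 : 1 ≤ m) :
    ((sysL hexL).b m : ℝ) ≤ ((4 * m + 1) * (m + 1)) * (HexObs.xc⁻¹) ^ m := by
  classical
  set B := ((sysL hexL).brSet m).image (real hexL false) with hB
  have hmem : ∀ l ∈ B, l.length = m ∧ TW hexL.S false l ∧ SA l ∧ Up l ∧ WDn l := by
    intro l hl
    obtain ⟨h1, h2, h3, h4⟩ := (mem_image_brSet mirrored_hex).1 hl
    refine ⟨h1, h2, h3, ?_, ?_⟩
    · intro i hi1 hi2
      exact (h4 i hi1 (by omega)).1
    · intro i hi
      have h5 : ps l m = l.sum := ps_of_le (by omega)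
      rcases Nat.eq_zero_or_pos i with h0 | h0
      · subst h0
        have := (h4 m (by omega) le_rfl).1
        rw [h5] at this
        rw [ps_zero]
        exact this.le
      · have := (h4 i h0 (by omega)).2
        rwa [h5] at this
  have hcard : B.card = (sysL hexL).b m := card_image_brSet hexL m
  rw [← hcard]
  set R : Finset (ℤ × ℤ) := Finset.Icc (-(2 * (m : ℤ))) (2 * m) ×ˢ Finset.Icc 0 (m : ℤ) with hR
  have hmaps : ∀ l ∈ B, l.sum ∈ R := by
    intro l hl
    obtain ⟨h1, h2, h3, h4, h5⟩ := hmem l hl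
    have h6 := sum_bound h2
    have h7 := h4.ht_nonneg
    rw [h1] at h6
    rw [hR, Finset.mem_product, Finset.mem_Icc, Finset.mem_Icc]
    exact ⟨⟨h6.1, h6.2.1⟩, h7, h6.2.2⟩
  have hfib : ∀ X ∈ R, ((B.filter (fun l => l.sum = X)).card : ℝ) ≤ (HexObs.xc⁻¹) ^ m := by
    intro X hX
    rw [hR, Finset.mem_product, Finset.mem_Icc, Finset.mem_Icc] at hX
    rcases le_or_gt 0 X.1 with h0 | h0
    · apply class_le (b := false) hm (X := X)
      · unfold lam
        linarith [hX.2.1]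
      · intro l hl
        rw [Finset.mem_filter] at hl
        obtain ⟨h1, h2, h3, h4, h5⟩ := hmem l hl.1
        exact ⟨h1, h2, h3, h4, h5, hl.2⟩
    · have hinj : Function.Injective (fun l : List (ℤ × ℤ) => l.map xmir) :=
        fun l l' h => map_xmir_inj h
      rw [← Finset.card_image_of_injective _ hinj]
      apply class_le (b := true) hm (X := xmir X)
      · unfold lam xmir
        simp only
        linarith [hX.2.1]
      · intro l' hl'
        obtain ⟨l, hl, rfl⟩ := Finset.mem_image.1 hl'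
        rw [Finset.mem_filter] at hl
        obtain ⟨h1, h2, h3, h4, h5⟩ := hmem l hl.1
        have hsum : (l.map xmir).sum = xmir l.sum := by
          have := ps_map_xmir l l.length
          rwa [ps_length, ps_of_le (by simp)] at this
        refine ⟨by simpa using h1, Mirrored.tw mirrored_hex h2, SA_map_xmir.2 h3, Up_map_xmir h4, ?_, ?_⟩
        · intro i hi
          rw [List.length_map] at hi
          rw [ps_map_xmir, hsum]
          exact h5 i hi
        · rw [hsum, hl.2]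
  have hRcard : R.card = (4 * m + 1) * (m + 1) := by
    rw [hR, Finset.card_product, Int.card_Icc, Int.card_Icc]
    have e1 : (2 * (m : ℤ) + 1 - -(2 * (m : ℤ))).toNat = 4 * m + 1 := by omega
    have e2 : ((m : ℤ) + 1 - 0).toNat = m + 1 := by omega
    rw [e1, e2]
  rw [Finset.card_eq_sum_card_fiberwise hmaps]
  push_cast
  refine (Finset.sum_le_sum hfib).trans (le_of_eq ?_)
  rw [Finset.sum_const, hRcard, nsmul_eq_mul]
  push_cast
  ring

/-- the growth of all self-avoiding walks is at most `1 / xc` -/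
theorem mu_le_of {μ : ℝ}
    (hμ : μ = ⨅ n : {n : ℕ // 1 ≤ n}, (((WS hexL n.1).card : ℝ) ^ ((1 : ℝ) / (n.1 : ℝ)))) :
    μ ≤ HexObs.xc⁻¹ := by
  have hx := HexObs.xc_pos
  by_contra hcon
  rw [not_le] at hcon
  set q := μ * HexObs.xc with hq
  have hq1 : 1 < q := by
    have := mul_lt_mul_of_pos_right hcon hx
    rwa [inv_mul_cancel₀ hx.ne'] at this
  have hq0 : 0 < q := by linarith
  have hlog : 0 < Real.log q := Real.log_pos hq1
  have hμ0 : 0 ≤ μ := by
    rw [hμ]; exact Real.iInf_nonneg (fun _ => by positivity)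
  have hup : ∀ b, ∃ u ∈ hexL.S b, u.2 = 1 := by
    intro b
    cases b
    · exact ⟨(-1, 1), by simp [hexL], rfl⟩
    · exact ⟨(1, 1), by simp [hexL], rfl⟩
  have ev := walk_le_bridge_L mirrored_hex hup (1 / 2) (by norm_num)
  -- comparison of growth
  have hlim : Filter.Tendsto (fun n : ℕ => (((n : ℝ) ^ ((1 : ℝ) / 2) + 10 * Real.log n) / n)) Filter.atTop
      (nhds 0) := by
    have h1 : Filter.Tendsto (fun x : ℝ => (x ^ ((1 : ℝ) / 2) + 10 * Real.log x) / x) Filter.atTop (nhds 0) := by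
      have h2 : Filter.Tendsto (fun x : ℝ => x ^ (-(1 / 2) : ℝ)) Filter.atTop (nhds 0) :=
        tendsto_rpow_neg_atTop (by norm_num)
      have h3 : Filter.Tendsto (fun x : ℝ => Real.log x / x) Filter.atTop (nhds 0) := by
        have := Real.isLittleO_log_id_atTop.tendsto_div_nhds_zero
        simpa using this
      have h4 : Filter.Tendsto (fun x : ℝ => x ^ (-(1 / 2) : ℝ) + 10 * (Real.log x / x)) Filter.atTop (nhds 0) := by
        simpa using h2.add (h3.const_mul 10)
      refine h4.congr' ?_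
      filter_upwards [Filter.eventually_gt_atTop 0] with x hx
      have h5 : x ^ ((1 : ℝ) / 2) / x = x ^ (-(1 / 2) : ℝ) := by
        have : x ^ (-(1 / 2) : ℝ) = x ^ ((1 : ℝ) / 2 - 1) := by norm_num
        rw [this, Real.rpow_sub_one hx.ne']
      rw [add_div, h5]
      ring
    exact h1.comp tendsto_natCast_atTop_atTop
  have ev2 := hlim.eventually (gt_mem_nhds hlog)
  obtain ⟨N, hN⟩ := (ev.and (ev2.and (Filter.eventually_ge_atTop 5))).exists_forall_of_atTop
  obtain ⟨h1, h2, h3⟩ := hN (2 * (N + 5)) (by omega)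
  set n : ℕ := 2 * (N + 5) with hn
  have hn5 : 5 ≤ n := h3
  have hnR : (5 : ℝ) ≤ n := by exact_mod_cast hn5
  have hn0 : (0 : ℝ) < n := by linarith
  have h4 := mu_pow_le (a := fun n => (WS hexL n).card) hμ n (by omega)
  have h5 := b_le (m := n) ⟨N + 5, by omega⟩ (by omega)
  have h6 : μ ^ n ≤ Real.exp ((n : ℝ) ^ ((1 : ℝ) / 2)) * (((4 * n + 1) * (n + 1)) * (HexObs.xc⁻¹) ^ n) :=
    h4.trans (h1.trans (mul_le_mul_of_nonneg_left h5 (Real.exp_pos _).le))
  have h7 : q ^ n ≤ Real.exp ((n : ℝ) ^ ((1 : ℝ) / 2)) * ((4 * n + 1) * (n + 1)) := by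
    have hxn : 0 < HexObs.xc ^ n := pow_pos hx n
    have := mul_le_mul_of_nonneg_right h6 hxn.le
    rw [← mul_pow, inv_pow] at this
    calc q ^ n ≤ _ := this
      _ = _ := by field_simp
  have h8 : ((4 * n + 1) * (n + 1) : ℝ) ≤ (n : ℝ) ^ 10 := by
    have e1 : (n : ℝ) ^ 10 = n ^ 2 * n ^ 8 := by ring
    have e2 : (10 : ℝ) ≤ (n : ℝ) ^ 8 := by
      calc (10 : ℝ) ≤ 5 ^ 8 := by norm_num
        _ ≤ (n : ℝ) ^ 8 := pow_le_pow_left₀ (by norm_num) hnR 8
    have e3 : ((4 * n + 1) * (n + 1) : ℝ) ≤ 10 * n ^ 2 := by nlinarith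
    have e4 : (n : ℝ) ^ 2 * 10 ≤ n ^ 2 * n ^ 8 := mul_le_mul_of_nonneg_left e2 (by positivity)
    linarith
  have h9 : q ^ n ≤ Real.exp ((n : ℝ) ^ ((1 : ℝ) / 2) + 10 * Real.log n) := by
    have e1 : Real.exp (10 * Real.log n) = (n : ℝ) ^ 10 := by
      rw [show (10 : ℝ) * Real.log n = ((10 : ℕ) : ℝ) * Real.log n by norm_num, Real.exp_nat_mul,
        Real.exp_log hn0]
    rw [Real.exp_add, e1]
    exact h7.trans (mul_le_mul_of_nonneg_left h8 (Real.exp_pos _).le)
  have h10 : (n : ℝ) * Real.log q ≤ (n : ℝ) ^ ((1 : ℝ) / 2) + 10 * Real.log n := by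
    have := Real.log_le_log (pow_pos hq0 n) h9
    rwa [Real.log_exp, Real.log_pow] at this
  have h11 : ((n : ℝ) ^ ((1 : ℝ) / 2) + 10 * Real.log n) / n < Real.log q := h2
  rw [div_lt_iff₀ hn0] at h11
  linarith [mul_comm (Real.log q) (n : ℝ)]

/-- the adjacency relation of the honeycomb lattice in the frozen statement -/
abbrev HexAdj : ℤ × ℤ → ℤ × ℤ → Prop := fun p q : ℤ × ℤ =>
    q - p = (1, 0) ∨ q - p = (-1, 0) ∨
    (q - p = (0, 1) ∧ Even (p.1 + p.2)) ∨
    (q - p = (0, -1) ∧ Even (q.1 + q.2))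

/-- **The connective constant of the honeycomb lattice is at most `1 / xc`.** -/
theorem mu_le {a : ℕ → ℕ}
    (ha : ∀ n : ℕ, a n = Set.ncard {f : Fin (n + 1) → ℤ × ℤ |
      f 0 = 0 ∧ Function.Injective f ∧ ∀ i : Fin n, HexAdj (f i.castSucc) (f i.succ)}) {μ : ℝ}
    (hμ : μ = ⨅ n : {n : ℕ // 1 ≤ n}, ((a n.1 : ℝ) ^ ((1 : ℝ) / (n.1 : ℝ)))) :
    μ ≤ HexObs.xc⁻¹ := by
  have haW : ∀ n, a n = (WS hexL n).card := fun n => (ha n).trans (vencHex.ncard_eq n)
  apply mu_le_of
  rw [hμ]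
  simp only [haW]

end HexMu
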