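import Pool.Agent.Slit.Class

/-!
The class of bridges with given displacement has at most `xc⁻¹ ^ m` members.
-/

set_option autoImplicit false

namespace HexMu

open SawNu Finset

/-- the long word leaves a strip through its top -/
lemma mem_out {b : Bool} {m k : ℕ} (hm : Even m) {X : ℤ × ℤ} (hX : 0 ≤ lam X) {w : List (ℤ × ℤ)}
    (hw : InKK b m k X w) {T : ℕ}
    (hT : lam ((zg true (n1 b m + 1)).sum + (k • X + (zg b (n2 b m + 1)).sum)) = 2 * (3 * T + 2)) :
    tword (lw b m w) ∈ HexObs.out (HexObs.strip (0, 0) (0, 1) T) (0, 0) (0, 1) (0, 1) := by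
  have h1 := lw_tw hm hw
  have h2 := lw_SA hw
  have hd : ((0, 1) : ℤ × ℤ) ∈ HexObs.dirs := by decide
  have hlen : (tword (lw b m w)).length = (ltail b m w).length := tword_length _ _
  have hlw : (lw b m w).length = (ltail b m w).length + 1 := rfl
  have hlev : ∀ i, i ≤ (ltail b m w).length + 1 →
      2 * HexObs.ip (HexObs.vx (0, 0) (0, 1) (tword (lw b m w)) i - (0, 0)) (0, 1) = lam (ps (lw b m w) i) := by
    intro i hi
    have h3 := vx_tword h1 h2 (0, 0) i hi
    have h4 : phi (1, 1) = (0, 1) := by decide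
    rw [h4] at h3
    rw [← lam_psi]
    exact congrArg lam h3
  have hsum : lam (lw b m w).sum = 2 * (3 * T + 2) := by rw [lw_sum hw, hT]
  refine ⟨⟨?_, ?_⟩, ?_, ?_⟩
  · intro i hi1 hi2
    rw [hlen] at hi2
    have h3 := hlev i (by omega)
    have h4 := lw_level hX hw i hi1 (by omega)
    rw [hsum] at h4
    refine ⟨HexObs.vx_hex _ _ _ _, by omega, by omega⟩
  · intro i j hij hj
    rw [hlen] at hj
    have := vx_tword_inj h1 h2 (0, 0) hij (by omega)
    have h4 : phi (1, 1) = (0, 1) := by decide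
    rw [h4] at this
    exact this
  · intro hcon
    have h3 := hlev ((ltail b m w).length + 1) le_rfl
    rw [ps_of_le (by rw [hlw])] at h3
    rw [hsum] at h3
    have h4 : HexObs.tip (0, 0) (0, 1) (tword (lw b m w)) =
        HexObs.vx (0, 0) (0, 1) (tword (lw b m w)) ((ltail b m w).length + 1) := by
      unfold HexObs.tip
      rw [hlen]
    rw [h4] at hcon
    have h5 := hcon.2.2
    omega
  · have h3 : tword (lw b m w) = tw (phi (1, 1)) ((ltail b m w).map phi) := rfl
    have h4 : phi (1, 1) = (0, 1) := by decide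
    have h5 := ch_of_SA h1 h2
    have h6 := dx_tw h5
    rw [List.length_map] at h6
    rw [hlen, h3, ← h4, h6]
    have h7 : (phi (1, 1) :: (ltail b m w).map phi) = (lw b m w).map phi := rfl
    have h8 : lw b m w ≠ [] := by simp [lw]
    simp only [h7]
    rw [List.getLast_map, lw_last]

theorem class_pow {b : Bool} {m : ℕ} (hm : Even m) {X : ℤ × ℤ} (hX : 0 ≤ lam X)
    {K : Finset (List (ℤ × ℤ))} (hK : ∀ l ∈ K, InK b m X l) (k : ℕ) :
    (K.card : ℝ) ^ k * HexObs.xc ^ (k * m + (4 * m + 4)) ≤ 1 := by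
  classical
  rcases (KK K k).eq_empty_or_nonempty with he | ⟨w0, hw0⟩
  · have h1 := card_KK (fun l hl => (hK l hl).len) k
    rw [he, Finset.card_empty] at h1
    have h2 : (K.card : ℝ) ^ k = 0 := by exact_mod_cast h1.symm
    rw [h2, zero_mul]
    exact zero_le_one
  have hin := inKK hm hX hK k
  have hd : ((0, 1) : ℤ × ℤ) ∈ HexObs.dirs := by decide
  -- the level of the end
  obtain ⟨T, hT1, hT⟩ : ∃ T : ℕ, 1 ≤ T ∧
      lam ((zg true (n1 b m + 1)).sum + (k • X + (zg b (n2 b m + 1)).sum)) = 2 * (3 * T + 2) := by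
    have hw := hin w0 hw0
    have h1 := lw_tw hm hw
    have h2 := lw_SA hw
    have h3 := vx_tword h1 h2 (0, 0) ((ltail b m w0).length + 1) le_rfl
    have h4 : phi (1, 1) = (0, 1) := by decide
    rw [h4] at h3
    have h5 := congrArg lam h3
    rw [lam_psi] at h5
    have h6 : ps ((1, 1) :: ltail b m w0) ((ltail b m w0).length + 1) = (lw b m w0).sum :=
      ps_of_le (by simp [lw])
    rw [h6, lw_sum hw] at h5
    have h7 := HexObs.level_mod (v0 := (0, 0)) hd (tword ((1, 1) :: ltail b m w0)) ((ltail b m w0).length + 1)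
    have hodd : ¬ Even ((ltail b m w0).length + 1) := by
      rw [ltail_length hw.len, Nat.not_even_iff_odd]
      obtain ⟨c, rfl⟩ := hm
      exact ⟨k * c + 4 * c + 2, by ring⟩
    rw [if_neg hodd] at h7
    rw [← h5]
    have h8 : 8 ≤ 2 * HexObs.ip (HexObs.vx (0, 0) (0, 1) (tword ((1, 1) :: ltail b m w0))
        ((ltail b m w0).length + 1) - (0, 0)) (0, 1) := by
      rw [h5, lam_add, lam_add, lam_smul]
      have e1 := zg_lam_sum true (n1 b m + 1)
      have e2 := zg_lam_sum b (n2 b m + 1)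
      have g1 := n1_ge b m
      have g2 := n2_ge b m
      zify at g1 g2
      push_cast at e1 e2
      have : 0 ≤ (k : ℤ) * lam X := by positivity
      have hm0 : (0 : ℤ) ≤ m := Int.natCast_nonneg _
      linarith
    generalize HexObs.ip (HexObs.vx (0, 0) (0, 1) (tword ((1, 1) :: ltail b m w0))
        ((ltail b m w0).length + 1) - (0, 0)) (0, 1) = z at h7 h8
    exact ⟨((z - 2) / 3).toNat, by omega, by omega⟩
  set S := (KK K k).image (fun w => tword (lw b m w)) with hS
  have hcard : S.card = K.card ^ k := by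
    rw [hS, Finset.card_image_of_injOn, card_KK (fun l hl => (hK l hl).len)]
    intro w hw w' hw' he
    have h1 := hin w hw
    have h2 := hin w' hw'
    have h3 := tword_inj (lw_tw hm h1) (lw_SA h1) (lw_tw hm h2) (lw_SA h2) he
    unfold ltail at h3
    exact List.append_cancel_right (List.append_cancel_left h3)
  have hlen : ∀ t ∈ S, t.length = k * m + (4 * m + 4) := by
    intro t ht
    obtain ⟨w, hw, rfl⟩ := Finset.mem_image.1 ht
    rw [show (tword (lw b m w)).length = (ltail b m w).length from tword_length _ _,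
      ltail_length (hin w hw).len]
  have hsub : (S : Set (List Bool)) ⊆ HexObs.out (HexObs.strip (0, 0) (0, 1) T) (0, 0) (0, 1) (0, 1) := by
    intro t ht
    obtain ⟨w, hw, rfl⟩ := Finset.mem_image.1 (Finset.mem_coe.1 ht)
    exact mem_out hm hX (hin w hw) hT
  have h1 := (HexObs.gf_mono hsub).trans (HexObs.gf_top_le_one hd hT1)
  rw [HexObs.gf_finset, ENNReal.ofReal_le_one] at h1
  have h2 : ∑ t ∈ S, HexObs.xc ^ t.length = (K.card : ℝ) ^ k * HexObs.xc ^ (k * m + (4 * m + 4)) := by
    rw [Finset.sum_congr rfl (fun t ht => by rw [hlen t ht]), Finset.sum_const, hcard, nsmul_eq_mul]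
    push_cast
    ring
  rwa [h2] at h1

theorem class_le {b : Bool} {m : ℕ} (hm : Even m) {X : ℤ × ℤ} (hX : 0 ≤ lam X)
    {K : Finset (List (ℤ × ℤ))} (hK : ∀ l ∈ K, InK b m X l) :
    (K.card : ℝ) ≤ (HexObs.xc⁻¹) ^ m := by
  have hx := HexObs.xc_pos
  have hxm : 0 < HexObs.xc ^ m := pow_pos hx _
  by_contra hcon
  rw [not_le, inv_pow] at hcon
  have hq : 1 < (K.card : ℝ) * HexObs.xc ^ m := by
    rw [inv_lt_iff_one_lt_mul₀ hxm] at hcon
    linarith [mul_comm (HexObs.xc ^ m) (K.card : ℝ)]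
  have hc : 0 < HexObs.xc ^ (4 * m + 4) := pow_pos hx _
  obtain ⟨k, hk⟩ := pow_unbounded_of_one_lt ((HexObs.xc ^ (4 * m + 4))⁻¹) hq
  have h1 := class_pow hm hX hK k
  have h2 : (K.card : ℝ) ^ k * HexObs.xc ^ (k * m + (4 * m + 4)) =
      ((K.card : ℝ) * HexObs.xc ^ m) ^ k * HexObs.xc ^ (4 * m + 4) := by
    rw [mul_pow, ← pow_mul, mul_comm m k, pow_add]
    ring
  rw [h2] at h1
  have h3 := mul_lt_mul_of_pos_right hk hc
  rw [inv_mul_cancel₀ hc.ne'] at h3
  linarith

end HexMu
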